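import Mathlib
import Pool.Agent.H735MQ.Final

set_option autoImplicit false

namespace Pool.Agent.Results.MP_2a1f0e_nt.AlmostAllTwists

/-- Montgomery's inequality for almost all twists `b_n χ(n)` of an arbitrary coefficient sequence
`|b_n| ≤ 1` by the characters `χ` modulo a prime `r > (2N)^k`, for every exponent `q > 0` and every
length `T`; the exceptional characters are at most `r N^(-B)`, `B` arbitrary. -/
theorem result :
    ∀ q ε B : ℝ, 0 < q → 0 < ε → 0 < B →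
      ∃ K : ℝ, ∃ k : ℕ, ∀ N T : ℕ, 1 ≤ N → 1 ≤ T → ∀ b : ℕ → ℂ, (∀ n, ‖b n‖ ≤ 1) →
        ∀ r : ℕ, r.Prime → (2 * N) ^ k < r →
          ({χ : DirichletCharacter ℂ r | K * (N : ℝ) ^ ε * ((N : ℝ) ^ (q / 2) * (T : ℝ))
              < ∑ t ∈ Finset.Icc 1 T, ‖∑ n ∈ Finset.Icc N (2 * N), b n * χ (n : ZMod r)
                * Complex.exp (Complex.I * (t : ℂ) * ((Real.log (n : ℝ) : ℝ) : ℂ))‖ ^ q}.ncard : ℝ)
            ≤ r * (N : ℝ) ^ (-B) :=
  fun q ε B hq hε hB => Pool.Agent.H735MQ.almost_all_twists q ε B hq hε hB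

end Pool.Agent.Results.MP_2a1f0e_nt.AlmostAllTwists
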